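import Mathlib

/-!
# Effective nef divisors on fourfolds with trivial canonical class (MP_5ee2d0_ag)

`X` is a smooth projective fourfold with `K_X ~ 0` and `H^1(X, O_X) = 0`, `L` is a nef divisor, and a
positive multiple of `L` is linearly equivalent to an effective divisor. Then `L` is semiample.

## The model

Suppose `L^3 = 0` and `m L ~ E`, `E` effective and not zero. Let `f : Y → X` be a log resolution of
`(X, E)`, an isomorphism outside of `E`, and `S` the reduced sum of the components of `f^*E`. The divisor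
`K_Y + S`, where `K_Y` is given by the 4-form of `X` without zeros, is effective with support `S`. The
minimal model program for `K_Y + S` stops (special termination, Fujino). Let `(Y', S')` be its end; it is
`ℚ`-factorial and dlt. The divisor `K_(Y') + S' = ∑ (k_j + 1) S_j` is nef, its support is `S'`, its third
power is numerically trivial, so its restriction to the sdlt threefold `S'` has numerical dimension at
most one. The restriction is semiample (abundance, Fujino 2000). So there is a Cartier divisor
`G' = ∑ m_j S_j`, `c G' = K_(Y') + S'` with a rational number `c > 0`, `m_j ≥ 1`, such that `O_(S')(G')` is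
the pull back of a very ample line bundle by `φ : S' → Z`, where `φ_* O = O_Z` and `Z` is a projective
seminormal scheme of dimension at most one.

Let `b` be a common multiple of the `m_j` with `c b` integral, and `l = c b - 1`. The root stack of order
`b` of `(Y', G')` along `S'` is locally the quotient of `V` by the group of the `b`-th roots of unity, `V` the
normalised covering `z^b = s`, `s` a local equation of `G'`. Let `D` be the divisor of `z`, and
`D_k = k D`. `D` is reduced and Cartier, `K_V = l D`, the pair `(V, D)` is log canonical and `V` is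
canonical, so Gorenstein. So `D` is semi log canonical, and it has Du Bois singularities; the
dualising sheaf of `D_k` is the restriction of `O_V((l + k) D)`. The group `H^q(D_k, O(m D))` is the
part of weight zero, it is `H^q` of the sheaf `O(⌊(m / b) G'⌋) / O(⌊((m - k) / b) G'⌋)` on `Y'`. In particular
`O(b D) = O(G')`.
-/

namespace Pool.Agent.H76.FF

/-! ## Cohomology of the infinitesimal neighbourhoods -/

/-- Cohomology of `D_k`, a projective scheme (stack) of dimension three; `D_0` is empty. -/
structure Coh where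
  /-- `H^q(D_k, O(m D))` -/
  H : (q k : ℕ) → (m : ℤ) → Type
  [gH : ∀ q k m, AddCommGroup (H q k m)]
  [mH : ∀ q k m, Module ℂ (H q k m)]
  /-- the restriction from `D_(k+1)` to `D_k` -/
  res : ∀ q k m, H q (k + 1) m →ₗ[ℂ] H q k m
  /-- the connecting map of `0 → O_D((m - k) D) → O_(D_(k+1))(m D) → O_(D_k)(m D) → 0` -/
  d : ∀ q k m, H q k m →ₗ[ℂ] H (q + 1) 1 (m - k)
  /-- the cup product with the classes in `H^1(D, O(-k D))` -/
  cup : ∀ q (k : ℕ) m, H 1 1 (-k) →ₗ[ℂ] H q k m →ₗ[ℂ] H (q + 1) 1 (m - k)
  /-- The classes `x` in `H^1(D, O(-k D))`, `k ≥ 1`, are the isomorphism classes of line bundles on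
  `D_(k+1)` with a trivialisation on `D_k`. This is `H^q(D_(k+1), O(m D) ⊗ x)`. -/
  T : (q k : ℕ) → (m : ℤ) → H 1 1 (-k) → Type
  [gT : ∀ q k m x, AddCommGroup (T q k m x)]
  [mT : ∀ q k m x, Module ℂ (T q k m x)]
  /-- the restrictions to `D_k` and to `D` -/
  rT : ∀ q k m x, T q k m x →ₗ[ℂ] H q k m
  rD : ∀ q k m x, T q k m x →ₗ[ℂ] H q 1 m
  /-- the inclusion of `O_(D_k)((m - 1) D)` -/
  iT : ∀ q k m x, H q k (m - 1) →ₗ[ℂ] T q k m x
  /-- the connecting map of `0 → O_(D_k)((m - 1) D) → O_(D_(k+1))(m D) ⊗ x → O_D(m D) → 0` -/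
  dl : ∀ q (k : ℕ) m, H 1 1 (-k) → H q 1 m →ₗ[ℂ] H (q + 1) k (m - 1)
  /-- the duality pairings on `D_(k+1)` and on `D_k` -/
  pT : ∀ q q' (k : ℕ) m m' (x x' : H 1 1 (-k)), T q k m x →ₗ[ℂ] T q' k m' x' →ₗ[ℂ] ℂ
  pH : ∀ q q' k m m', H q k m →ₗ[ℂ] H q' k (m' - 1) →ₗ[ℂ] ℂ

attribute [instance] Coh.gH Coh.mH Coh.gT Coh.mT

/-- Exact sequences and duality; the dualising sheaf of `D_(k+1)` is `O((l + k + 1) D)`. -/
structure Coh.Exact (C : Coh) (l : ℕ) : Prop where
  exact : ∀ q k m t, 1 ≤ k → (C.d q k m t = 0 ↔ ∃ u, C.res q k m u = t)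
  exact_rT : ∀ q k m x u, 1 ≤ k → C.d q k m (C.rT q k m x u) + C.cup q k m x (C.rT q k m x u) = 0
  exact_rD : ∀ q k m x u, 1 ≤ k → C.dl q k m x (C.rD q k m x u) = 0
  exact_iT : ∀ q k m x y, 1 ≤ k → C.iT (q + 1) k m x y = 0 → ∃ v, C.dl q k m x v = y
  inj_iT : ∀ k m x y, 1 ≤ k → C.iT 0 k m x y = 0 → y = 0
  /-- Serre duality -/
  onto : ∀ q q' (k : ℕ) (m m' : ℤ) x x' (f : C.T q' k m' x' →ₗ[ℂ] ℂ), 1 ≤ k → q + q' = 3 →
    m + m' = l + k + 1 → x + x' = 0 → ∃ u, C.pT q q' k m m' x x' u = f
  inj : ∀ q q' (k : ℕ) (m m' : ℤ) t, 1 ≤ k → q + q' = 3 → m + m' = l + k + 1 →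
    C.pH q q' k m m' t = 0 → t = 0
  adjoint : ∀ q q' (k : ℕ) (m m' : ℤ) x x' u y, 1 ≤ k → q + q' = 3 → m + m' = l + k + 1 →
    x + x' = 0 →
    C.pH q q' k m m' (C.rT q k m x u) y = C.pT q q' k m m' x x' u (C.iT q' k m' x' y)
  /-- there is no cohomology in degrees greater than three -/
  dim : ∀ q k m (t : C.H q k m), 3 < q → t = 0

/-- the restriction from `D_(k+1)` to `D` -/
def Coh.one (C : Coh) (q : ℕ) (m : ℤ) : ∀ k, C.H q (k + 1) m →ₗ[ℂ] C.H q 1 m
  | 0 => LinearMap.id
  | k + 1 => (Coh.one C q m k).comp (C.res q (k + 1) m)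

/-- all classes of degree at least `l + k + 1` on `D_k` extend to `D_(k+1)` -/
def Coh.E (C : Coh) (l k : ℕ) : Prop :=
  ∀ q (m : ℤ), (l + k + 1 : ℤ) ≤ m → ∀ t : C.H q k m, ∃ u, C.res q k m u = t

/-- Let `s` be a section of `O(M D)` on `D_k`, `M` a multiple of `b`, whose restriction to `D` is a
general section of the pull back of a very ample line bundle on `Z`. Suppose that the divisor of `s` is
the intersection of `D_k` with a Cartier divisor `W` on `D_(k+1)`. Then `O(W) = O(M D) ⊗ x`, where `s` is
the restriction of the section `1_W`, and `O(D) ⊗ (x / M)` is an `M`-th root of `O(W)`. Consider the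
covering `y^M = 1_W` of `D_(k+1)`. Its reduction is the covering `y^M = s` of `D`, it is semi log
canonical (on the root stack), so its coarse space has Du Bois singularities (Kollár and Kovács). The
direct images of the structure sheaves are the sums of the sheaves `O(m D) ⊗ (m / M) x` and `O_D(m D)`,
`-M < m ≤ 0`. -/
structure Coh.Cover (C : Coh) (k M : ℕ) (x : C.H 1 1 (-k)) (s : C.H 0 k M) where
  /-- `s` extends to a section of `O(M D) ⊗ x` -/
  ext : C.d 0 k M s + C.cup 0 k M x s = 0
  /-- the cohomology of the covering with coefficients in `ℂ` -/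
  A : ℕ → Type
  /-- and in the structure sheaf, for the coverings of `D_(k+1)` and of `D` -/
  B : ℕ → Type
  B' : ℕ → Type
  f : ∀ q, A q → B q
  g : ∀ q, B q → B' q
  /-- `H^q(ℂ) → H^q(O)` is onto for a projective scheme with Du Bois singularities -/
  dubois : ∀ q y, ∃ u, g q (f q u) = y
  /-- the projections to the eigenspaces of the group of the `M`-th roots of unity -/
  e : ∀ q (m : ℤ), B q → C.T q k m (((m : ℂ) / M) • x)
  e' : ∀ q (m : ℤ), B' q → C.H q 1 m
  e_g : ∀ q (m : ℤ) y, -(M : ℤ) < m → m ≤ 0 → e' q m (g q y) = C.rD q k m _ (e q m y)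
  e_onto : ∀ q (m : ℤ) y, -(M : ℤ) < m → m ≤ 0 → ∃ u, e' q m u = y

/-! ## The direct images on `Z` -/

/-- The direct images of the sheaves `O_(D_k)(m D)`. For a point `z` of `Z` let `Δ_z` be a small Stein
neighbourhood of `z`. `Z` has dimension zero or one. -/
structure Img where
  /-- the points of `Z` -/
  Z : Type
  /-- The general points: they are on the curves of `Z`, which are smooth there, all direct images of
  the sheaves `O_D(m D)` are locally free, and `D → Z` is topologically locally trivial; `Δ_z` is a small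
  disc. An element of `G` is a general point together with a coordinate `t` on `Δ_z` and a trivialisation
  of the line bundle `O(b D)` over `Δ_z` (on the neighbourhoods `D_k` on which it is needed). If `Z` is a
  point then `G` is empty. -/
  G : Type
  pt : G → Z
  /-- `H^q` of the part of `D_k` over `Δ_z`, with coefficients in `O(m D)` -/
  R : (q k : ℕ) → (m : ℤ) → Z → Type
  [gR : ∀ q k m z, AddCommGroup (R q k m z)]
  [mR : ∀ q k m z, Module ℂ (R q k m z)]
  /-- the restriction from `D_(k+1)` to `D_k` -/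
  res : ∀ q k m z, R q (k + 1) m z →ₗ[ℂ] R q k m z
  /-- the inclusion of `O_(D_k)((m - 1) D)` in `O_(D_(k+1))(m D)`: the product with the equation of `D` -/
  mz : ∀ q k m z, R q k (m - 1) z →ₗ[ℂ] R q (k + 1) m z

attribute [instance] Img.gR Img.mR

/-- the restriction from `D_(k+1)` to `D` -/
def Img.one (I : Img) (q : ℕ) (m : ℤ) (z : I.Z) : ∀ k, I.R q (k + 1) m z →ₗ[ℂ] I.R q 1 m z
  | 0 => LinearMap.id
  | k + 1 => (Img.one I q m z k).comp (I.res q (k + 1) m z)

/-- `D_0` is empty, and the cohomology sequence of `0 → O_(D_k)((m - 1) D) → O_(D_(k+1))(m D) → O_D(m D) → 0`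
is exact. -/
structure Img.Exact (I : Img) : Prop where
  zero : ∀ q m z (y : I.R q 0 m z), y = 0
  ker : ∀ q k m z y, I.one q m z k y = 0 → ∃ v, I.mz q k m z v = y

/-- The direct images of the sheaves on `D_(k+1)` are mapped onto the direct images of the sheaves on
`D_k`. -/
def Img.S (I : Img) (k : ℕ) : Prop := ∀ q m z y, ∃ u, I.res q k m z u = y

/-! ## The first obstruction -/

/-- The obstruction to the extension of functions from `D_k` to `D_(k+1)`, `k = n + 1`, where the direct
images of the sheaves on `D_(j+1)` are mapped onto those on `D_j` for all `j < k`.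

Over `Δ_z` the line bundle `O(b D)` is trivial on `D_k`; for a general point the trivialisation is given,
for a special point choose one over the whole of `Δ_z`. Then `O(D)` is the product of the structure
sheaf of `D_k` and of a local system of rank one whose `b`-th power is trivial.
Let `ρ` be its power with the exponent `a = l + k + 1`. So `R 1 j a z`, `j ≤ k`, is also `H^1` of
`ρ ⊗ O_(D_j)`, and `ρ ⊗ O_D(-k D)` is the dualising sheaf of `D`. The local system `R^1 φ_* ρ` on the general
points of `Δ_z` is an admissible variation of mixed Hodge structures of weights zero and one; another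
trivialisation multiplies its image in `R 1 1 a z` by a function without zeros. -/
structure Symbol (I : Img) (n : ℕ) (a : ℤ) where
  /-- the holomorphic functions on `Δ_z`, `z` general, a coordinate `t` and the derivation `d/dt` -/
  O : I.G → Type
  [rO : ∀ g, CommRing (O g)]
  [aO : ∀ g, Algebra ℂ (O g)]
  t : ∀ g, O g
  der : ∀ g, Derivation ℂ (O g) (O g)
  [mC : ∀ g, Module (O g) (I.R 1 1 (-(n + 1)) (I.pt g))]
  [mB : ∀ g, Module (O g) (I.R 1 1 a (I.pt g))]
  /-- the functions on `D` over `Δ_z` -/
  fn : ∀ g, I.R 0 1 0 (I.pt g) →ₗ[ℂ] O g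
  /-- the cup product with values in `R^2` of the dualising sheaf and the trace: the coefficient of `dt`
  of a holomorphic 1-form -/
  pair : ∀ g, I.R 1 1 (-(n + 1)) (I.pt g) →ₗ[O g] I.R 1 1 a (I.pt g) →ₗ[O g] O g
  /-- the products with a function on `D_k` -/
  mf : ∀ g, I.R 0 (n + 1) 0 (I.pt g) → I.R 0 (n + 1) 0 (I.pt g) → I.R 0 (n + 1) 0 (I.pt g)
  mb : ∀ g, I.R 0 (n + 1) 0 (I.pt g) → I.R 1 (n + 1) a (I.pt g) → I.R 1 (n + 1) a (I.pt g)
  /-- the connecting maps of the sequences `0 → O_D(-k D) → O_(D_(k+1)) → O_(D_k) → 0` and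
  `0 → ρ ⊗ O_D(-k D) → ρ ⊗ O_(D_(k+1)) → ρ ⊗ O_(D_k) → 0`; the second one with the trace -/
  d : ∀ g, I.R 0 (n + 1) 0 (I.pt g) →ₗ[ℂ] I.R 1 1 (-(n + 1)) (I.pt g)
  dd : ∀ g, I.R 1 (n + 1) a (I.pt g) →ₗ[ℂ] O g
  /-- the flat sections of the local system over `Δ_z`, which is `H^1(ρ)` of the part of `D` over `Δ_z` -/
  F : I.G → Type
  fl : ∀ g, F g → I.R 1 (n + 1) a (I.pt g)
  /-- the sections of the vector bundle `𝓥` of the local system, and the connection `∇_(d/dt)` -/
  V : I.G → Type
  [gV : ∀ g, AddCommGroup (V g)]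
  [mV : ∀ g, Module (O g) (V g)]
  inc : ∀ g, F g → V g
  na : ∀ g, V g →+ V g
  /-- the projection to `R^1` of `ρ ⊗ O_D`; its kernel is `F^1` -/
  pr : ∀ g, V g →ₗ[O g] I.R 1 1 a (I.pt g)
  /-- the part of weight zero -/
  W : ∀ g, Submodule (O g) (V g)
  /-- the points on the curves of `Z` which are not general, and the branches of the curves there -/
  Sp : Type
  sp : Sp → I.Z
  Br : Sp → Type
  /-- A general point near the special point `z` on the branch, such that `t` is a coordinate of the branch
  with the centre `z`, and the trivialisation of `O(b D)` is the restriction of the one over `Δ_z`. -/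
  near : ∀ z, Br z → I.G
  /-- the functions on the small disc which are holomorphic on the branch of `Δ_z` -/
  Reg : ∀ z β, Set (O (near z β))
  /-- Deligne's extension of `𝓥` to the branch of `Δ_z`, such that the eigenvalues of the residue are in
  `(0, 1]` -/
  Lat : ∀ z β, Set (V (near z β))
  rho : ∀ z β j, I.R 1 j a (sp z) →ₗ[ℂ] I.R 1 j a (I.pt (near z β))
  /-- the sections of the dualising sheaf of `Z` on `Δ_z`, the connecting map and the trace, and the
  coefficient of `dt` -/
  Om : Sp → Type
  om : ∀ z, I.R 1 (n + 1) a (sp z) → Om z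
  rs : ∀ z β, Om z → O (near z β)
  /-- the family `c_z` is a section of `R^1 φ_* O_D(-k D) ⊗ T_Z` over the general points of `Z`; there
  `c_z ⊗ d/dt` -/
  Glob : (∀ g, I.R 1 1 (-(n + 1)) (I.pt g)) → Prop

attribute [instance] Symbol.rO Symbol.aO Symbol.mC Symbol.mB Symbol.gV Symbol.mV

/-- The rules at a general point. -/
structure Symbol.Gen {I : Img} {n : ℕ} {a : ℤ} (A : Symbol I n a) : Prop where
  /-- `φ_* O_D = O_Z` -/
  fn_inj : ∀ g x, A.fn g x = 0 → x = 0
  fn_onto : ∀ g f, ∃ x, A.fn g x = f
  fn_mf : ∀ g x y, A.fn g (I.one 0 0 _ n (A.mf g x y)) =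
    A.fn g (I.one 0 0 _ n x) * A.fn g (I.one 0 0 _ n y)
  one_mb : ∀ g x y, I.one 1 a _ n (A.mb g x y) = A.fn g (I.one 0 0 _ n x) • I.one 1 a _ n y
  /-- the connecting maps are derivations -/
  d_mf : ∀ g x y, A.d g (A.mf g x y) =
    A.fn g (I.one 0 0 _ n x) • A.d g y + A.fn g (I.one 0 0 _ n y) • A.d g x
  dd_mb : ∀ g x y, A.dd g (A.mb g x y) =
    A.fn g (I.one 0 0 _ n x) * A.dd g y + A.pair g (A.d g x) (I.one 1 a _ n y)
  exact_d : ∀ g x, A.d g x = 0 → ∃ u, I.res 0 (n + 1) 0 _ u = x
  /-- a class on `D_k` with values in `O(-D)`, multiplied with the equation of `D`, is a class on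
  `D_(k+1)` -/
  d_mz : ∀ g u, A.d g (I.mz 0 n 0 _ (I.res 0 n (0 - 1) _ u)) = 0
  dd_mz : ∀ g u, A.dd g (I.mz 1 n a _ (I.res 1 n (a - 1) _ u)) = 0
  /-- a flat section gives a class on `D_(k+1)`, as `ρ` is a local system -/
  dd_fl : ∀ g w, A.dd g (A.fl g w) = 0
  one_fl : ∀ g w, I.one 1 a _ n (A.fl g w) = A.pr g (A.inc g w)
  /-- the flat sections generate `𝓥` -/
  span : ∀ g v, ∃ (r : ℕ) (f : Fin r → A.O g) (w : Fin r → A.F g), v = ∑ i, f i • A.inc g (w i)
  na_smul : ∀ g (f : A.O g) v, A.na g (f • v) = A.der g f • v + f • A.na g v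
  na_inc : ∀ g w, A.na g (A.inc g w) = 0
  der_t : ∀ g, A.der g (A.t g) = 1
  /-- the module of differentials: a derivation of the functions on a disc with values in a finitely
  generated free module is a multiple of `d/dt` (Krull's theorem) -/
  derivation : ∀ g (δ : Derivation ℂ (A.O g) (I.R 1 1 (-(n + 1)) (I.pt g))) f,
    δ f = A.der g f • δ (A.t g)
  /-- Serre duality for the general fibres, and `𝓥 → R^1` is onto -/
  dual : ∀ g c, (∀ v, A.pair g c (A.pr g v) = 0) → c = 0

/-- The rules at a special point `z`. -/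
structure Symbol.Spec {I : Img} {n : ℕ} {a : ℤ} (A : Symbol I n a) : Prop where
  rho_res : ∀ z β j u, A.rho z β j (I.res 1 j a _ u) = I.res 1 j a _ (A.rho z β (j + 1) u)
  rs_om : ∀ z β u, A.rs z β (A.om z u) = A.dd (A.near z β) (A.rho z β (n + 1) u)
  /-- A section of the dualising sheaf of the seminormal curve is a system of 1-forms on the branches
  with at most simple poles, and the sum of the residues is zero. -/
  residue : ∀ z β ω, (∀ β', β' ≠ β → A.rs z β' ω = 0) → A.rs z β ω ∈ A.Reg z β
  /-- the eigenvalues of the residue are positive, so `t ∇_(d/dt)` is bijective -/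
  onto : ∀ z β, ∀ e ∈ A.Lat z β, ∃ e' ∈ A.Lat z β, A.t (A.near z β) • A.na (A.near z β) e' = e
  /-- Let `D_z` be the fibre of `D` over `z`. The Du Bois complex `Ω^0` of the pair `(D, D_z)` is the sum of
  its parts on the branches, and `R^1` of its product with `ρ` is the quotient of Deligne's extension
  (Steenbrink, Saito). It maps to the Du Bois complex of `D`, which is `O_D`. -/
  cls : ∀ z β, ∀ e ∈ A.Lat z β, ∃ u, A.rho z β 1 u = A.pr _ e ∧ ∀ β', β' ≠ β → A.rho z β' 1 u = 0

/-- The family of the linear forms `c_z` on `𝓥` is regular at the special points. -/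
def Symbol.Bdd {I : Img} {n : ℕ} {a : ℤ} (A : Symbol I n a)
    (c : ∀ g, I.R 1 1 (-(n + 1)) (I.pt g)) : Prop :=
  ∀ z β, ∀ e ∈ A.Lat z β, ∃ f ∈ A.Reg z β, A.pair _ (c _) (A.pr _ e) = A.t _ * f

/-- Let `c` be a global section of `R^1 φ_* O_D(-k D) ⊗ T_Z` on the general points of `Z`. It is a linear form
on `R^1 φ_* O_D(a D)`. Over every curve in `Z` let `s` be a multivalued section of the line bundle of
positive degree of which `O_D(a D)` is locally the product with `ρ`, such that a power of `s` is a
section which has zeros in general points. So `λ = c(s)` is a linear form on `𝓥`, with values in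
functions, up to roots of unity. If `c` is regular at the special points then `λ` is a section of
Deligne's extension of the dual, with the eigenvalues of the residue in `[0, 1)`, so its Hodge norm is
`O(|log |t||^N)` (Schmid). -/
structure Symbol.Hodge {I : Img} {n : ℕ} {a : ℤ} (A : Symbol I n a) : Prop where
  /-- `c(dt)` for the symbol -/
  glob : ∀ τ : ∀ g, I.R 0 (n + 1) 0 (I.pt g), (∀ g, A.fn g (I.one 0 0 _ n (τ g)) = A.t g) →
    A.Glob fun g => A.d g (τ g)
  /-- The part of weight zero is a unitary flat bundle, `log |λ|` is subharmonic on the curve, and it is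
  `-∞` at the zeros of `s`. -/
  w0 : ∀ c, A.Glob c → A.Bdd c → ∀ g, ∀ v ∈ A.W g, A.pair g (c g) (A.pr g v) = 0
  /-- A linear form on the part of weight one which is zero on `F^1` and on `∇ F^1` is a section of a
  Hodge bundle of the dual in the kernel of the Higgs field, and `log |λ|` is subharmonic (Griffiths,
  Simpson; Zuo 2000). -/
  w1 : ∀ c, A.Glob c → A.Bdd c → (∀ g, ∀ v ∈ A.W g, A.pair g (c g) (A.pr g v) = 0) →
    (∀ g v, A.pr g v = 0 → A.pair g (c g) (A.pr g (A.na g v)) = 0) →
    ∀ g v, A.pair g (c g) (A.pr g v) = 0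

/-! ## The whole structure -/

/-- The infinitesimal neighbourhoods of `D`. -/
structure Nbhd (l b : ℕ) where
  C : Coh
  cex : C.Exact l
  I : Img
  iex : I.Exact
  b_pos : 0 < b
  /-- the sections of `O(M D)` on `D_k` whose restriction to `D` is general, `M` a multiple of `b` -/
  Gn : ∀ k M : ℕ, Set (C.H 0 k M)
  /-- if all sections on `D` are restrictions then the sections with general restriction are dense -/
  span : ∀ k M : ℕ, 0 < M → b ∣ M → (∀ y, ∃ u, C.one 0 M k u = y) →
    (Gn (k + 1) M).Nonempty ∧ Submodule.span ℂ (Gn (k + 1) M) = ⊤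
  /-- If the functions on `D_k` extend to `D_(k+1)` over the neighbourhoods of the general points of `Z`
  then the divisor of `s`, which is a union of fibres over such points, extends. -/
  cover : ∀ k M : ℕ, 1 ≤ k → 0 < M → b ∣ M → (∀ j, j < k → I.S j) →
    (∀ g f, ∃ u, I.res 0 k 0 (I.pt g) u = f) → ∀ s ∈ Gn k M, ∃ x, Nonempty (C.Cover k M x s)
  /-- if `s` extends to a section `u` on `D_(k+1)` let `W` be the divisor of `u` -/
  cover_zero : ∀ k M : ℕ, 1 ≤ k → 0 < M → b ∣ M → ∀ s ∈ Gn k M, (∃ u, C.res 0 k M u = s) →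
    Nonempty (C.Cover k M 0 s)
  /-- Serre's theorems and Leray's spectral sequence: if the classes of large degree on `D_k` extend to
  `D_(k+1)` then the direct images are mapped onto each other. [The direct images on `D_k` are
  successive extensions of coherent sheaves on `Z`. The connecting map is zero on the global sections
  of large degree, so it is zero on their quotients, and so on all functions on `D_k`, as it is a
  derivation with values in a coherent sheaf (Krull); so it is linear over the functions, and the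
  global classes of large degree generate.] -/
  serre : ∀ k, 1 ≤ k → (∀ j, j < k → I.S j) →
    (∀ q, ∃ m₀ : ℤ, ∀ m, m₀ ≤ m → ∀ t, ∃ u, C.res q k m u = t) → I.S k
  symbol : ∀ n : ℕ, (∀ j, j < n + 1 → I.S j) → (∀ j, 1 ≤ j → j < n + 1 → C.E l j) →
    Symbol I n (l + n + 2)
  gen : ∀ n h h', (symbol n h h').Gen
  spec : ∀ n h h', (symbol n h h').Spec
  hodge : ∀ n h h', (symbol n h h').Hodge

end Pool.Agent.H76.FF
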