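import Pool.Agent.H31.FF.Extend
import Pool.Agent.H47.FF.Symbol
import Pool.Agent.H54.FF.Special

namespace Pool.Agent.H76.FF

variable {l b : ℕ}

/-- The functions on `D_k` extend to `D_(k+1)` over the general points. -/
theorem Symbol.extend {I : Img} {n : ℕ} {a : ℤ} (A : Symbol I n a) (hI : I.Exact)
    (hG : A.Gen) (hP : A.Spec) (hH : A.Hodge) (hS : ∀ j, j < n + 1 → I.S j) :
    ∀ g f, ∃ u, I.res 0 (n + 1) 0 (I.pt g) u = f := by
  have h1 : ∀ g, ∃ τ, A.fn g (I.one 0 0 _ n τ) = A.t g := by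
    intro g
    obtain ⟨x, hx⟩ := hG.fn_onto g (A.t g)
    obtain ⟨u, hu⟩ := I.one_onto 0 0 (I.pt g) n hS x
    exact ⟨u, by rw [hu, hx]⟩
  choose τ hτ using h1
  have hc := fun g v u hu => Symbol.Gen.connect A hG hI hS g (τ g) (hτ g) v u hu
  have hb : A.Bdd fun g => A.d g (τ g) := Symbol.Spec.bdd A hG hP hS _ hc
  have hgl := hH.glob τ hτ
  have h0 := hH.w0 _ hgl hb
  have h2 : ∀ g v, A.pr g v = 0 → A.pair g (A.d g (τ g)) (A.pr g (A.na g v)) = 0 := by
    intro g v hv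
    rw [← hc g v 0 (by rw [map_zero, hv]), map_zero]
  have h3 := hH.w1 _ hgl hb h0 h2
  intro g
  exact Symbol.Gen.functions A hG hI hS g (τ g) (hτ g) (hG.dual g _ (h3 g))

/-- **Theorem.** All classes of degree at least `l + k + 1` on `D_k` extend to `D_(k+1)`. -/
theorem Nbhd.all (N : Nbhd l b) : ∀ k, 1 ≤ k → N.C.E l k ∧ N.I.S k := by
  intro k
  induction k using Nat.strong_induction_on with
  | _ k ih =>
    intro hk
    obtain ⟨n, rfl⟩ : ∃ n, k = n + 1 := ⟨k - 1, by omega⟩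
    have hE : ∀ j, 1 ≤ j → j < n + 1 → N.C.E l j := fun j h h' => (ih j h' h).1
    have hS : ∀ j, j < n + 1 → N.I.S j := by
      intro j hj
      rcases Nat.eq_zero_or_pos j with rfl | h
      · intro q m z y
        exact ⟨0, by rw [map_zero, N.iex.zero q m z y]⟩
      · exact (ih j hj h).2
    have hL := (N.symbol n hS hE).extend N.iex (N.gen n hS hE) (N.spec n hS hE) (N.hodge n hS hE) hS
    have h1 := N.extend (n + 1) hk hE hS hL
    exact ⟨h1, N.serre (n + 1) hk hS fun q => ⟨l + (n + 1 : ℕ) + 1, fun m hm t => h1 q m hm t⟩⟩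

/-- All sections of `O(M D)` on `D` extend to the neighbourhood `D_(n+1)`, `M ≥ l + n + 1`. -/
theorem Nbhd.lift (N : Nbhd l b) (M : ℤ) : ∀ n : ℕ, (l + n + 1 : ℤ) ≤ M → ∀ y : N.C.H 0 1 M,
    ∃ u, N.C.one 0 M n u = y := by
  intro n
  induction n with
  | zero => exact fun _ y => ⟨y, rfl⟩
  | succ n ih =>
    intro h y
    push_cast at h
    obtain ⟨u, hu⟩ := ih (by linarith) y
    obtain ⟨v, hv⟩ := (N.all (n + 1) (by omega)).1 0 M (by push_cast; linarith) u
    exact ⟨v, by rw [Coh.one, LinearMap.comp_apply, hv, hu]⟩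

end Pool.Agent.H76.FF
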